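import Pool.Agent.TH693.MP.Main

/-!
# Multi-pass lower bound for streaming algorithms with `n exp ((log n) ^ (1 / (10 k)))` bits

The gadgets are those of the library `TH693/MP`; here their size is controlled explicitly
(`2 ^ (ℓ ^ (5 r + 1))`), and the parameter `ℓ` is a power of `log n` instead of `log log n`.
-/

set_option autoImplicit false
set_option linter.unusedSectionVars false

open Finset Filter MeasureTheory

namespace Pool.Agent.Y633.SM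

open Pool.Agent.TH693.MP

/-- `exists_gadget` with the explicit exponent `d = 5 r + 1`. -/
theorem exists_gadget' (r : ℕ) : ∀ (d c : ℕ) (δ : ℝ), d = 5 * r + 1 → 0 < δ → δ ≤ 1 →
    ∃ N : ℕ, 1 ≤ N ∧
    ∀ᶠ ℓ : ℕ in atTop, ∃ (G : Gadget) (β θ : ℝ), 0 < β ∧ β ≤ 1 ∧ 1 / β ≤ 2 ^ (ℓ ^ d) ∧
      Fintype.card G.U = Fintype.card G.V ∧ 1 ≤ Fintype.card G.U ∧
      (Fintype.card G.U : ℝ) ≤ 2 ^ (ℓ ^ d) ∧
      Real.log (Fintype.card G.X) ≤ 2 ^ (ℓ ^ d) ∧ Real.log (Fintype.card G.Y) ≤ 2 ^ (ℓ ^ d) ∧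
      (Fintype.card G.U : ℝ) = 2 * 6 ^ r * θ ∧ G.M ≤ Fintype.card G.U ∧
      Hard G r N θ 1 β (2 ^ (c * ℓ) * Fintype.card G.U) ((3 * r + 1) * δ) := by
  induction r with
  | zero =>
    intro d c δ hd hδ hδ1
    obtain rfl : d = 1 := by omega
    have hl2 : 0 < Real.log 2 := Real.log_pos (by norm_num)
    have hl2' : Real.log 2 ≤ 1 := by
      have := Real.log_le_sub_one_of_pos (show (0 : ℝ) < 2 by norm_num)
      linarith
    obtain ⟨N, hN⟩ := exists_nat_gt (4 / (δ * Real.log 2))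
    have hN0 : (0 : ℝ) < N := lt_trans (by positivity) hN
    obtain ⟨β, hβ⟩ : ∃ β : ℝ, β = δ * Real.log 2 / 4 := ⟨_, rfl⟩
    have hβ0 : 0 < β := by rw [hβ]; positivity
    have hN1 : 1 ≤ N := by
      have : 0 < N := by exact_mod_cast hN0
      omega
    refine ⟨N, hN1, ?_⟩
    have ev : ∀ᶠ ℓ : ℕ in atTop, 1 / β ≤ (2 : ℝ) ^ ℓ :=
      (tendsto_pow_atTop_atTop_of_one_lt (by norm_num)).eventually_ge_atTop _
    filter_upwards [ev, eventually_ge_atTop 1] with ℓ h1 h2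
    have h3 : (2 : ℝ) ≤ 2 ^ (ℓ ^ 1) := by
      rw [pow_one]
      calc (2 : ℝ) = 2 ^ 1 := (pow_one 2).symm
        _ ≤ 2 ^ ℓ := pow_le_pow_right₀ (by norm_num) h2
    refine ⟨base, β, 1, hβ0, ?_, ?_, rfl, ?_, ?_, ?_, ?_, ?_, ?_, ?_⟩
    · rw [hβ]; nlinarith
    · rw [pow_one]; exact h1
    · change 1 ≤ Fintype.card Bool
      simp
    · change (Fintype.card Bool : ℝ) ≤ _
      simp only [Fintype.card_bool, Nat.cast_ofNat]
      exact h3
    · change Real.log (Fintype.card Unit) ≤ _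
      simp
    · change Real.log (Fintype.card Bool) ≤ _
      simp only [Fintype.card_bool, Nat.cast_ofNat]
      linarith
    · change (Fintype.card Bool : ℝ) = _
      simp
    · change 2 ≤ Fintype.card Bool
      simp
    · refine hard_base hN1 hβ0.le ?_
      rw [div_le_iff₀ hl2, hβ]
      have : 1 / (N : ℝ) ≤ δ * Real.log 2 / 4 := by
        rw [div_le_iff₀ hN0]
        rw [div_lt_iff₀ (by positivity)] at hN
        linarith
      push_cast
      linarith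
  | succ r ih =>
    intro d₁ c δ hd₁ hδ hδ1
    obtain ⟨d, rfl⟩ : ∃ d, d₁ = d + 5 := ⟨5 * r + 1, by omega⟩
    obtain ⟨N, hN, ev⟩ := ih d (c + 1) δ (by omega) hδ hδ1
    refine ⟨N, hN, ?_⟩
    have ev1 : ∀ᶠ ℓ : ℕ in atTop, 6 * ℓ ^ (d + 2) ≤ 2 ^ ℓ := by
      have h1 : Tendsto (fun n : ℕ => (n : ℝ) ^ (d + 2) / (2 : ℝ) ^ n) atTop (nhds 0) :=
        tendsto_pow_const_div_const_pow_of_one_lt (d + 2) (by norm_num)
      have h2 := h1.eventually (gt_mem_nhds (show (0 : ℝ) < 1 / 6 by norm_num))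
      filter_upwards [h2] with ℓ h
      rw [div_lt_iff₀ (by positivity)] at h
      have : (6 : ℝ) * (ℓ : ℝ) ^ (d + 2) ≤ 2 ^ ℓ := by linarith
      exact_mod_cast this
    have ev3 : ∀ᶠ ℓ : ℕ in atTop, 14 / δ ≤ (2 : ℝ) ^ ℓ :=
      (tendsto_pow_atTop_atTop_of_one_lt (by norm_num)).eventually_ge_atTop _
    filter_upwards [ev, ev1, eventually_ge_atTop 192, ev3, eventually_ge_atTop (c + 1)] with
      ℓ hG f1 f2 f3 f4
    obtain ⟨G', β', θ', h1, h2, h3, h4, h5, h6, h7, h8, h9, h10, h11⟩ := hG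
    exact grow_step r c d N ℓ δ hδ hδ1 hN f1 f2 f3 f4 G' β' θ' h1 h2 h3 h4 h5 h6 h7 h8 h9 h10 h11

theorem lower_bound' (k : ℕ) (hk : 1 ≤ k) (δ : ℝ) (hδ : 0 < δ) :
    ∃ n₀ : ℕ, ∀ n : ℕ, n₀ ≤ n → ∀ s : ℕ,
      (s : ℝ) ≤ n * Real.exp (Real.log n ^ (1 / (10 * (k : ℝ)))) →
      ∀ (Ω : Type) [MeasurableSpace Ω] (μ : Measure Ω) [IsProbabilityMeasure μ]
        (A : Ω → Alg n s), ¬ Solves μ A k (1 - 3 / 36 ^ k) δ := by
  obtain ⟨m, rfl⟩ : ∃ m, k = m + 1 := ⟨k - 1, by omega⟩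
  obtain ⟨δ', hδ'⟩ : ∃ δ' : ℝ, δ' = min δ 1 / (3 * (2 * m + 1) + 2) := ⟨_, rfl⟩
  have hm0 : (0 : ℝ) < 3 * (2 * m + 1) + 2 := by positivity
  have hmin : 0 < min δ 1 := lt_min hδ one_pos
  have hδ'0 : 0 < δ' := by rw [hδ']; positivity
  have hδ'e : δ' * (3 * (2 * m + 1) + 2) = min δ 1 := by rw [hδ']; field_simp
  have hδ'1 : δ' ≤ 1 := by
    have : min δ 1 ≤ 1 := min_le_right _ _
    have hm1 : (0 : ℝ) ≤ m := Nat.cast_nonneg _
    nlinarith
  obtain ⟨d, hd⟩ : ∃ d, d = 5 * (2 * m + 1) + 1 := ⟨_, rfl⟩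
  obtain ⟨N, hN, ev⟩ := exists_gadget' (2 * m + 1) d 1 δ' hd hδ'0 hδ'1
  -- the exponents
  obtain ⟨η, hη⟩ : ∃ η : ℝ, η = 1 / (10 * ((m + 1 : ℕ) : ℝ)) := ⟨_, rfl⟩
  obtain ⟨a, ha⟩ : ∃ a : ℝ, a = 1 / ((d : ℝ) + 1) := ⟨_, rfl⟩
  have hm1 : (0 : ℝ) ≤ m := Nat.cast_nonneg _
  have hη0 : 0 < η := by rw [hη]; positivity
  have ha0 : 0 < a := by rw [ha]; positivity
  have hηa : η < a := by
    rw [hη, ha, hd]
    push_cast
    apply one_div_lt_one_div_of_lt (by positivity)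
    linarith
  have had : a * d + a = 1 := by rw [ha]; field_simp
  have tlog : Tendsto (fun n : ℕ => Real.log n) atTop atTop :=
    Real.tendsto_log_atTop.comp tendsto_natCast_atTop_atTop
  have ta : Tendsto (fun n : ℕ => Real.log n ^ a) atTop atTop :=
    (tendsto_rpow_atTop ha0).comp tlog
  have tη : Tendsto (fun n : ℕ => Real.log n ^ η) atTop atTop :=
    (tendsto_rpow_atTop hη0).comp tlog
  have tb : Tendsto (fun n : ℕ => Real.log n ^ (a - η)) atTop atTop :=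
    (tendsto_rpow_atTop (by linarith)).comp tlog
  have tl : Tendsto (fun n : ℕ => ⌊Real.log n ^ a⌋₊) atTop atTop :=
    tendsto_nat_floor_atTop.comp ta
  have evn := (tl.eventually ev).and ((ta.eventually_ge_atTop 2).and
    ((tη.eventually_ge_atTop 1).and ((tb.eventually_ge_atTop 9).and
      (tlog.eventually_ge_atTop (2 * ((N : ℝ) + 1))))))
  obtain ⟨n₁, hn₁⟩ := eventually_atTop.1 evn
  refine ⟨max n₁ 3, fun n hn s hs Ω _ μ _ A => ?_⟩
  have hn3 : 3 ≤ n := (le_max_right _ _).trans hn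
  obtain ⟨⟨G, β, θ, h1, h2, h3, h4, h5, h6, h7, h8, h9, h10, h11⟩, g1, g2, g3, g4⟩ :=
    hn₁ n ((le_max_left _ _).trans hn)
  rw [← hη] at hs
  obtain ⟨x, hx⟩ : ∃ x : ℝ, x = Real.log n := ⟨_, rfl⟩
  obtain ⟨ℓ, hℓ⟩ : ∃ ℓ : ℕ, ℓ = ⌊Real.log n ^ a⌋₊ := ⟨_, rfl⟩
  rw [← hℓ] at h3 h6 h7 h8 h11
  rw [← hx] at g1 g2 g3 g4 hℓ hs
  have hnr0 : (0 : ℝ) < n := by
    have : 0 < n := by omega
    exact_mod_cast this
  have hexpx : Real.exp x = n := by rw [hx, Real.exp_log hnr0]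
  have hN1r : (0 : ℝ) ≤ N := Nat.cast_nonneg _
  have hx0 : 0 < x := by linarith
  have hl2 : Real.log 2 ≤ 1 := by
    have := Real.log_le_sub_one_of_pos (show (0 : ℝ) < 2 by norm_num)
    linarith
  have hl2' : (1 / 2 : ℝ) ≤ Real.log 2 := by
    have := Real.log_two_gt_d9
    linarith
  have hxa0 : 0 ≤ x ^ a := Real.rpow_nonneg hx0.le _
  have hℓle : (ℓ : ℝ) ≤ x ^ a := by rw [hℓ]; exact Nat.floor_le hxa0
  have hℓge : x ^ a - 1 ≤ (ℓ : ℝ) := by
    rw [hℓ]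
    have := (Nat.lt_floor_add_one (x ^ a)).le
    linarith
  -- the size of the gadget
  have hsize : (ℓ : ℝ) ^ d + (N + 1) ≤ x := by
    have e1 : (ℓ : ℝ) ^ d ≤ (x ^ a) ^ d := pow_le_pow_left₀ (Nat.cast_nonneg _) hℓle d
    have e2 : (x ^ a) ^ d * x ^ a = x := by
      rw [← Real.rpow_natCast, ← Real.rpow_mul hx0.le, ← Real.rpow_add hx0, had, Real.rpow_one]
    have e3 : (0 : ℝ) ≤ (x ^ a) ^ d := by positivity
    have e4 : (x ^ a) ^ d * 2 ≤ x := by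
      calc (x ^ a) ^ d * 2 ≤ (x ^ a) ^ d * x ^ a := by gcongr
        _ = x := e2
    linarith
  have hgrow : 4 * (Real.exp (x ^ η) + 2) ≤ (2 : ℝ) ^ ℓ := by
    have e1 : x ^ a = x ^ η * x ^ (a - η) := by
      rw [← Real.rpow_add hx0]
      congr 1
      ring
    have e2 : 2 * x ^ η + 7 ≤ x ^ a := by
      rw [e1]
      nlinarith
    have e3 : x ^ η + 3 ≤ ℓ * Real.log 2 := by
      have e4 : x ^ η + 3 ≤ (ℓ : ℝ) * (1 / 2) := by linarith
      exact e4.trans (mul_le_mul_of_nonneg_left hl2' (Nat.cast_nonneg _))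
    have e4 : (2 : ℝ) ^ ℓ = Real.exp (ℓ * Real.log 2) := by
      rw [Real.exp_nat_mul, Real.exp_log (by norm_num)]
    have e5 : (12 : ℝ) ≤ Real.exp 3 := by
      have h := Real.exp_one_gt_d9
      have h' : Real.exp 3 = Real.exp 1 ^ 3 := by rw [← Real.exp_nat_mul]; norm_num
      rw [h']
      calc (12 : ℝ) ≤ 2.7 ^ 3 := by norm_num
        _ ≤ Real.exp 1 ^ 3 := by
            apply pow_le_pow_left₀ (by norm_num)
            linarith
    have e6 : (1 : ℝ) ≤ Real.exp (x ^ η) := Real.one_le_exp (by linarith)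
    rw [e4]
    calc 4 * (Real.exp (x ^ η) + 2) ≤ 12 * Real.exp (x ^ η) := by linarith
      _ ≤ Real.exp 3 * Real.exp (x ^ η) := by gcongr
      _ = Real.exp (x ^ η + 3) := by rw [← Real.exp_add, add_comm]
      _ ≤ Real.exp (ℓ * Real.log 2) := Real.exp_le_exp.2 e3
  obtain ⟨K, hK⟩ : ∃ K : ℕ, K = n / (2 * Fintype.card G.U) := ⟨_, rfl⟩
  have hU0 : 0 < 2 * Fintype.card G.U := by omega
  have hUN : 2 * Fintype.card G.U * N ≤ n := by
    have e2 : Fintype.card G.U ≤ 2 ^ (ℓ ^ d) := by exact_mod_cast h6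
    have e3 : N ≤ 2 ^ N := Nat.lt_two_pow_self.le
    have e4 : 2 * Fintype.card G.U * N ≤ 2 ^ (ℓ ^ d + (N + 1)) := by
      calc 2 * Fintype.card G.U * N ≤ 2 * 2 ^ (ℓ ^ d) * 2 ^ N := by gcongr
        _ = 2 ^ (ℓ ^ d + (N + 1)) := by rw [pow_add, pow_succ]; ring
    refine e4.trans ?_
    have e5 : ((2 : ℝ)) ^ (ℓ ^ d + (N + 1)) ≤ n := by
      have e6 : (2 : ℝ) ^ (ℓ ^ d + (N + 1)) =
          Real.exp (((ℓ ^ d + (N + 1) : ℕ) : ℝ) * Real.log 2) := by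
        rw [Real.exp_nat_mul, Real.exp_log (by norm_num)]
      rw [e6, ← hexpx]
      apply Real.exp_le_exp.2
      have e7 : (((ℓ ^ d + (N + 1) : ℕ) : ℝ)) ≤ x := by push_cast; exact hsize
      have e8 : (0 : ℝ) ≤ ((ℓ ^ d + (N + 1) : ℕ) : ℝ) := Nat.cast_nonneg _
      nlinarith
    exact_mod_cast e5
  have hKN : N ≤ K := by
    rw [hK, Nat.le_div_iff_mul_le hU0, mul_comm]
    exact hUN
  have hK1 : 1 ≤ K := hN.trans hKN
  have hKn : n ≤ 4 * Fintype.card G.U * K := by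
    have e1 : n < 2 * Fintype.card G.U * (K + 1) := by
      rw [hK]
      exact Nat.lt_mul_div_succ n hU0
    nlinarith
  have hKle : K * (Fintype.card G.U + Fintype.card G.V) ≤ n := by
    rw [← h4, ← two_mul, hK]
    exact Nat.div_mul_le_self n _
  obtain ⟨φ⟩ : Nonempty (Fin K × (G.U ⊕ G.V) ↪ Fin n) := by
    refine Function.Embedding.nonempty_of_card_le ?_
    rw [Fintype.card_prod, Fintype.card_sum, Fintype.card_fin, Fintype.card_fin]
    exact hKle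
  have hs' : s * Real.log 2 + Real.log (Fintype.card (Sym2 (Fin n)) + 1) ≤
      2 ^ (1 * ℓ) * Fintype.card G.U * K := by
    have e1 : (s : ℝ) * Real.log 2 ≤ s := by
      have : (0 : ℝ) ≤ s := Nat.cast_nonneg _
      nlinarith
    have e2 := log_sym2 n (by omega)
    have e7 : (s : ℝ) * Real.log 2 + Real.log (Fintype.card (Sym2 (Fin n)) + 1) ≤
        (Real.exp (x ^ η) + 2) * n := by linarith
    refine e7.trans ?_
    have e8 : (n : ℝ) ≤ 4 * Fintype.card G.U * K := by exact_mod_cast hKn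
    have e9 : (0 : ℝ) ≤ Real.exp (x ^ η) + 2 := by positivity
    rw [one_mul]
    calc (Real.exp (x ^ η) + 2) * n ≤ (Real.exp (x ^ η) + 2) * (4 * Fintype.card G.U * K) := by
          gcongr
      _ = (4 * (Real.exp (x ^ η) + 2)) * (Fintype.card G.U * K) := by ring
      _ ≤ 2 ^ ℓ * (Fintype.card G.U * K) := by gcongr
      _ = _ := by ring
  refine not_solves_of_hard G h11 h1.le K n s hKN φ hs' (ε := 3 / 36 ^ (m + 1)) ?_ ?_ ?_ μ A
  · have e1 : (G.M : ℝ) ≤ 2 * 6 ^ (2 * m + 1) * θ := by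
      rw [← h9]; exact_mod_cast h10
    have e2 : (36 : ℝ) ^ (m + 1) = 6 * 6 ^ (2 * m + 1) := by
      rw [← pow_succ', show 2 * m + 1 + 1 = 2 * (m + 1) by ring, pow_mul]
      norm_num
    rw [e2, div_mul_eq_mul_div, div_le_iff₀ (by positivity)]
    linarith
  · rw [div_le_one (by positivity)]
    calc (3 : ℝ) ≤ 36 ^ 1 := by norm_num
      _ ≤ 36 ^ (m + 1) := pow_le_pow_right₀ (by norm_num) (by omega)
  · push_cast
    have e1 : min δ 1 ≤ δ := min_le_left _ _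
    nlinarith

end Pool.Agent.Y633.SM
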